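import Pool.Agent.H16.ORS.W

/-! ORS, row ACC: truth depends on lower levels. -/

set_option autoImplicit false

open Polynomial Finset
open Pool.ORB (Ad pre str Wo Enu Acc Tr inl al un LL AgO pair OM)

namespace Pool.ORS

namespace H52

theorem eval_le (P : ℕ[X]) {a b : ℕ} (h : a ≤ b) : P.eval a ≤ P.eval b := by
  rw [Polynomial.eval_eq_sum, Polynomial.eval_eq_sum]
  unfold Polynomial.sum
  exact Finset.sum_le_sum fun i _ => Nat.mul_le_mul_left _ (Nat.pow_le_pow_left h i)

theorem AgO.mono {n n' : ℕ} {O O' : Set (List Bool)} (h : AgO n O O') (hn : n' ≤ n) :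
    AgO n' O O' := fun s hs => h s (hs.trans hn)

end H52

theorem acc_row (hS : STRStmt) (hO : ORWStmt) (hA : Pool.ORB.ACCStmt) : ACCStmt := by
  obtain ⟨-, -, hpi, hpl, hlv, -⟩ := hS
  have one : ∀ (en : Enu) (n : ℕ) (O O' : Set (List Bool)) (e : Ad), e.1 ≠ 0 →
      lev en e ≤ n + 1 → AgO n O O' → (tr en O e ↔ tr en O' e) := by
    intro en n O O' e he hl hag
    have h1 := (hlv en e).2 he
    have h2 : nl en e = (al en (e.1 - 1)).eval e.2.length := by
      unfold nl
      rw [if_neg he]
    have key : ∀ x a : List Bool, e.2 = pair x a →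
        (Tr en (e.1 - 1) O x ↔ Tr en (e.1 - 1) O' x) := by
      intro x a hx
      apply hA.2.1
      apply H52.AgO.mono hag
      have h3 : x.length ≤ e.2.length := by
        rw [hx, hpl]
        omega
      have h4 := H52.eval_le (al en (e.1 - 1)) h3
      omega
    constructor
    · rintro ⟨x, a, hx, ht⟩
      exact ⟨x, a, hx, (key x a hx).1 ht⟩
    · rintro ⟨x, a, hx, ht⟩
      exact ⟨x, a, hx, (key x a hx).2 ht⟩
  refine ⟨one, ?_, ?_⟩
  · intro en O i x a
    constructor
    · rintro ⟨x', a', h, ht⟩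
      have := (hpi _ _ _ _ h).1
      rw [this]
      simpa using ht
    · intro ht
      exact ⟨x, a, rfl, by simpa using ht⟩
  · intro en n ω ω' hag e he
    unfold Wrong
    by_cases h0 : e.1 = 0
    · simp [h0]
    · rw [hag e he, one en n _ _ e h0 (he.trans (Nat.le_succ n)) (hO.2.2 en n ω ω' hag)]

end Pool.ORS
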